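import Pool.Agent.KS6_83.PN.A

/-!
The comparison principle with a negligible set of boundary points, for bounded functions.
-/

set_option autoImplicit false

open MeasureTheory Filter Topology Set
open scoped ENNReal NNReal RealInnerProductSpace

namespace Pool.Agent.KS6_83.PN

open Pool.Agent.Helper533.Polar

variable {n : ℕ} {p α β Cd θ Cs lam Cp : ℝ}

/-- there are cutoff functions of small norm, equal to one near `E` in `Ω` -/
def Cut (p : ℝ) (μ : Measure (Sp n)) (Ω E : Set (Sp n)) : Prop :=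
  ∀ e : ℝ, 0 < e → ∃ (φ : Sp n → ℝ) (Φ : Sp n → Sp n), LH p μ Ω φ Φ ∧ AEStronglyMeasurable φ μ ∧
    MemLp Φ (ENNReal.ofReal p) μ ∧ (∀ᵐ x ∂μ, 0 ≤ φ x ∧ φ x ≤ 1) ∧
    (∃ O : Set (Sp n), IsOpen O ∧ E ⊆ O ∧ ∀ᵐ x ∂μ, x ∈ O → x ∈ Ω → φ x = 1) ∧
    eLpNorm φ (ENNReal.ofReal p) μ ≤ ENNReal.ofReal e ∧
    eLpNorm Φ (ENNReal.ofReal p) μ ≤ ENNReal.ofReal e

theorem ae1_strip' {Ω : Set (Sp n)} (hΩ : IsOpen Ω) (hΩb : Bornology.IsBounded Ω)
    (hn : Ωᶜ.Nonempty) {u v : Sp n → ℝ} {E : Set (Sp n)}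
    (hbd : ∀ y ∈ frontier Ω, y ∉ E → ∀ e : ℝ, 0 < e → ∃ r > 0, ∀ x ∈ Ω, x ∈ Metric.ball y r →
      v x < u x + e) {e : ℝ} (he : 0 < e) {O : Set (Sp n)} (hO : IsOpen O) (hEO : E ⊆ O) :
    ∃ s : ℝ, 0 < s ∧ ∀ x ∈ Ω, Metric.infDist x Ωᶜ < 2 * s → x ∉ O → v x < u x + e := by
  by_contra hcon
  push Not at hcon
  have hseq : ∀ k : ℕ, ∃ x ∈ Ω, Metric.infDist x Ωᶜ < 2 * (1 / ((k : ℝ) + 1)) ∧ x ∉ O ∧
      u x + e ≤ v x := fun k => hcon _ (by positivity)
  choose x hxΩ hxd hxO hxe using hseq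
  have hcomp : IsCompact (closure Ω) := hΩb.isCompact_closure
  obtain ⟨y, hy, ψ, hψ, hlim⟩ := hcomp.tendsto_subseq (fun k => subset_closure (hxΩ k))
  have hd : Tendsto (fun k => Metric.infDist (x (ψ k)) Ωᶜ) atTop (𝓝 (Metric.infDist y Ωᶜ)) :=
    ((Metric.continuous_infDist_pt Ωᶜ).tendsto y).comp hlim
  have hd0 : Tendsto (fun k => Metric.infDist (x (ψ k)) Ωᶜ) atTop (𝓝 0) := by
    have h1 : Tendsto (fun k : ℕ => 2 * (1 / ((k : ℝ) + 1))) atTop (𝓝 0) := by
      have := (tendsto_one_div_add_atTop_nhds_zero_nat (𝕜 := ℝ)).const_mul 2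
      simpa using this
    exact squeeze_zero (fun k => Metric.infDist_nonneg) (fun k => (hxd (ψ k)).le)
      (h1.comp hψ.tendsto_atTop)
  have hy0 : Metric.infDist y Ωᶜ = 0 := tendsto_nhds_unique hd hd0
  have hyc : y ∈ Ωᶜ := (hΩ.isClosed_compl.mem_iff_infDist_zero hn).2 hy0
  have hyf : y ∈ frontier Ω := by
    rw [hΩ.frontier_eq]
    exact ⟨hy, hyc⟩
  have hyO : y ∉ O := by
    have := hO.isClosed_compl.mem_of_tendsto hlim (Eventually.of_forall fun k => hxO (ψ k))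
    exact this
  obtain ⟨r, hr, hball⟩ := hbd y hyf (fun h => hyO (hEO h)) e he
  have hev : ∀ᶠ k in atTop, x (ψ k) ∈ Metric.ball y r := hlim.eventually (Metric.ball_mem_nhds y hr)
  obtain ⟨k, hk⟩ := hev.exists
  have h1 := hball _ (hxΩ (ψ k)) hk
  have h2 := hxe (ψ k)
  linarith

theorem energy_bound' (hp : 1 < p) (hα : 0 < α) (hβ : 0 < β) {μ : Measure (Sp n)}
    [IsFiniteMeasureOnCompacts μ] {A : Sp n → Sp n → Sp n} (hA : Op p α β μ A)
    (hadm : Adm p μ Cd θ Cs lam Cp) {Ω : Set (Sp n)} (hΩ : IsOpen Ω) (hΩb : Bornology.IsBounded Ω)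
    (hn : Ωᶜ.Nonempty) {u v : Sp n → ℝ} {m : ℝ} (hm0 : 0 ≤ m) (hmu : ∀ x ∈ Ω, |u x| ≤ m)
    (hmv : ∀ x ∈ Ω, |v x| ≤ m) (hul : LowerSemicontinuousOn u Ω) (hvl : UpperSemicontinuousOn v Ω)
    (hu : CmpSuper A p μ Ω u) (hv : CmpSuper A p μ Ω (fun x => - v x)) {E : Set (Sp n)}
    (hbd : ∀ y ∈ frontier Ω, y ∉ E → ∀ e : ℝ, 0 < e → ∃ r > 0, ∀ x ∈ Ω, x ∈ Metric.ball y r →
      v x < u x + e) :
    ∃ (N : ℕ) (C : ℝ), 0 ≤ C ∧ ∀ e : ℝ, 0 < e → ∀ (φ : Sp n → ℝ) (Φ : Sp n → Sp n),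
      LH p μ Ω φ Φ → MemLp Φ (ENNReal.ofReal p) μ → (∀ᵐ x ∂μ, 0 ≤ φ x ∧ φ x ≤ 1) →
      (∃ O : Set (Sp n), IsOpen O ∧ E ⊆ O ∧ ∀ᵐ x ∂μ, x ∈ O → x ∈ Ω → φ x = 1) →
      eLpNorm (Ω.indicator fun x => (max (v x - u x - e) 0 * (1 - φ x)) ^ (N + 1)) (ENNReal.ofReal p) μ
        ≤ ENNReal.ofReal C * eLpNorm Φ (ENNReal.ofReal p) μ := by
  obtain ⟨N, C0, hC0, hcore⟩ := core_energy' (n := n) (M0 := m + 1) hp hα hβ (by linarith)
  obtain ⟨CF, hCF, hfr⟩ := friedrichs (D := Ω) hp hadm hΩb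
  refine ⟨N, CF * C0, mul_nonneg hCF hC0, ?_⟩
  intro e he φ Φ hφ hφM hφ01 hφ1
  obtain ⟨O, hO, hEO, hφ1⟩ := hφ1
  obtain ⟨s, hs, hstrip⟩ := ae1_strip' hΩ hΩb hn hbd he hO hEO
  set d : Sp n → ℝ := fun x => Metric.infDist x Ωᶜ with hd
  have hdc : Continuous d := Metric.continuous_infDist_pt Ωᶜ
  obtain ⟨hKc, hKΩ⟩ := ae1_compact hΩb hs
  obtain ⟨hK1c, hK1Ω⟩ := ae1_compact hΩb (half_pos hs)
  set K : Set (Sp n) := {x | s ≤ Metric.infDist x Ωᶜ} with hKdef
  set K1 : Set (Sp n) := {x | s / 2 ≤ Metric.infDist x Ωᶜ} with hK1def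
  have hmv' : ∀ x ∈ Ω, |(fun x => - v x) x| ≤ m := by
    intro x hx
    simp only [abs_neg]
    exact hmv x hx
  obtain ⟨Gu, Ku, hGu, hKu, hK1Gu, hGuKu, hKuΩ, hau⟩ :=
    approx_below hp hα hβ hA hadm hΩ hΩb hm0 hmu hu hn hK1c hK1Ω
  obtain ⟨Gv, Kv, hGv, hKv, hK1Gv, hGvKv, hKvΩ, hav⟩ :=
    approx_below hp hα hβ hA hadm hΩ hΩb hm0 hmv' hv hn hK1c hK1Ω
  have hvl' : LowerSemicontinuousOn (fun x => - v x) Ω := by
    intro x hx y hy
    have := hvl x hx (-y) (by simp only at hy ⊢; linarith)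
    filter_upwards [this] with z hz
    linarith
  obtain ⟨f, hf1, hf2, hf3, hf4, hf5⟩ := lsc_approx hKu u (hul.mono hKuΩ) hm0 (fun x hx => hmu x (hKuΩ hx))
  obtain ⟨g, hg1, hg2, hg3, hg4, hg5⟩ := lsc_approx hKv (fun x => - v x) (hvl'.mono hKvΩ) hm0
    (fun x hx => hmv' x (hKvΩ hx))
  -- Dini
  have hfm : ∀ x, Monotone (fun j => f j x) := fun x => monotone_nat_of_le_succ (fun j => hf2 j x)
  have hgm : ∀ x, Monotone (fun j => g j x) := fun x => monotone_nat_of_le_succ (fun j => hg2 j x)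
  set Sh : Set (Sp n) := K1 ∩ {x | d x ≤ s ∧ x ∉ O} with hSh
  have hShc : IsCompact Sh := by
    apply hK1c.inter_right
    exact (isClosed_le hdc continuous_const).inter hO.isClosed_compl
  have hdini : ∃ j, Sh ⊆ {x | - g j x - f j x < e} := by
    apply hShc.elim_directed_cover (fun j => {x | - g j x - f j x < e})
    · intro j
      exact isOpen_lt ((hg1 j).continuous.neg.sub (hf1 j).continuous) continuous_const
    · intro x hx
      obtain ⟨hx1, hx2, hx3⟩ := hx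
      have hxΩ : x ∈ Ω := hK1Ω hx1
      have h1 : v x < u x + e := hstrip x hxΩ (by
        have : d x ≤ s := hx2
        simp only [hd] at this
        linarith) hx3
      have h2 : Tendsto (fun j => - g j x - f j x) atTop (𝓝 (-(- v x) - u x)) :=
        (hg5 x (hGvKv (hK1Gv hx1))).neg.sub (hf5 x (hGuKu (hK1Gu hx1)))
      have h3 : ∀ᶠ j in atTop, - g j x - f j x < e := h2.eventually_lt_const (by linarith)
      obtain ⟨j, hj⟩ := h3.exists
      exact mem_iUnion.2 ⟨j, hj⟩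
    · apply Monotone.directed_le
      intro i j hij x hx
      have hx' : - g i x - f i x < e := hx
      have h1 := hfm x hij
      have h2 := hgm x hij
      simp only at h1 h2
      show - g j x - f j x < e
      linarith
  obtain ⟨j, hj⟩ := hdini
  have hfb : ∀ x, |f j x| ≤ m + 1 := fun x => abs_le.2 ⟨by linarith [(hf4 j x).1], by linarith [(hf4 j x).2]⟩
  have hgb : ∀ x, |g j x| ≤ m + 1 := fun x => abs_le.2 ⟨by linarith [(hg4 j x).1], by linarith [(hg4 j x).2]⟩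
  obtain ⟨w, W, hw1, _, hw3⟩ := hau (f j) (hf1 j) hfb (hf3 j)
  obtain ⟨w', W', hw1', _, hw3'⟩ := hav (g j) (hg1 j) hgb (hg3 j)
  set G0 : Set (Sp n) := (Gu ∩ Gv) ∩ {x | s / 2 < d x} with hG0
  have hG0o : IsOpen G0 := (hGu.inter hGv).inter (isOpen_lt continuous_const hdc)
  have hG0u : G0 ⊆ Gu := fun x hx => hx.1.1
  have hG0v : G0 ⊆ Gv := fun x hx => hx.1.2
  have hKK1 : K ⊆ K1 := by
    intro x hx
    have : s ≤ Metric.infDist x Ωᶜ := hx
    show s / 2 ≤ Metric.infDist x Ωᶜ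
    linarith
  have hKG0 : K ⊆ G0 := by
    intro x hx
    refine ⟨⟨hK1Gu (hKK1 hx), hK1Gv (hKK1 hx)⟩, ?_⟩
    have : s ≤ Metric.infDist x Ωᶜ := hx
    show s / 2 < Metric.infDist x Ωᶜ
    linarith
  have hsup : Sup A p μ G0 w W := Sup.mono_set hp hw1 hG0o hG0u
  have hsub : Sub A p μ G0 (fun x => - w' x) (fun x => - W' x) :=
    Sup.neg hp hA (Sup.mono_set hp hw1' hG0o hG0v)
  have hG0Ω : G0 ⊆ Ω := fun x hx => hKuΩ (hGuKu (hG0u hx))
  have hbdd : ∀ᵐ x ∂μ, x ∈ G0 → |w x| ≤ m + 1 ∧ |(fun x => - w' x) x| ≤ m + 1 := by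
    refine Filter.Eventually.of_forall ?_
    intro x hx
    have h1 := hw3 x (hG0u hx)
    have h2 := hw3' x (hG0v hx)
    have h3 := abs_le.1 (hmu x (hG0Ω hx))
    have h4 := abs_le.1 (hmv x (hG0Ω hx))
    have h5 := hf4 j x
    have h6 := hg4 j x
    constructor
    · rw [abs_le]
      constructor <;> linarith
    · rw [abs_le]
      constructor <;> linarith
  have hzero : ∀ᵐ x ∂μ, x ∈ G0 → x ∉ K → max ((fun x => - w' x) x - w x - e) 0 * (1 - φ x) = 0 := by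
    filter_upwards [hφ1] with x hx hxG hxK
    by_cases hxb : x ∈ O
    · rw [hx hxb (hG0Ω hxG)]
      simp
    · have h2 : ¬ s ≤ d x := hxK
      have h3 : s / 2 < d x := hxG.2
      have h4 : x ∈ Sh := ⟨h3.le, (not_le.1 h2).le, hxb⟩
      have h5 : - g j x - f j x < e := hj h4
      have h6 := hw3 x (hG0u hxG)
      have h7 := hw3' x (hG0v hxG)
      have h8 : max ((fun x => - w' x) x - w x - e) 0 = 0 := by
        apply max_eq_right
        simp only
        linarith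
      rw [h8, zero_mul]
  obtain ⟨TT, hTT, hTTe⟩ := hcore A μ hA G0 K hG0o hKc hKG0 w (fun x => - w' x) φ W (fun x => - W' x) Φ e he
    hsup hsub hbdd (LH.mono hφ hG0Ω hp hG0o) hφM hφ01 hzero
  have hF := hfr _ TT (hTT.mono hG0Ω)
  have hmono : eLpNorm (Ω.indicator fun x => (max (v x - u x - e) 0 * (1 - φ x)) ^ (N + 1)) (ENNReal.ofReal p) μ
      ≤ eLpNorm (K.indicator fun x => (max ((fun x => - w' x) x - w x - e) 0 * (1 - φ x)) ^ (N + 1))
        (ENNReal.ofReal p) μ := by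
    apply eLpNorm_mono_ae
    filter_upwards [hφ1, hφ01] with x hx hx01
    by_cases hxΩ : x ∈ Ω
    · rw [indicator_of_mem hxΩ]
      by_cases hxK : x ∈ K
      · rw [indicator_of_mem hxK]
        have h1 : 0 ≤ 1 - φ x := by linarith [hx01.2]
        have h2 := hw3 x (hG0u (hKG0 hxK))
        have h3 := hw3' x (hG0v (hKG0 hxK))
        have h4 : max (v x - u x - e) 0 ≤ max ((fun x => - w' x) x - w x - e) 0 := by
          apply max_le_max _ le_rfl
          simp only at h3 ⊢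
          linarith
        rw [Real.norm_of_nonneg (pow_nonneg (mul_nonneg (le_max_right _ _) h1) _),
          Real.norm_of_nonneg (pow_nonneg (mul_nonneg (le_max_right _ _) h1) _)]
        exact pow_le_pow_left₀ (mul_nonneg (le_max_right _ _) h1) (mul_le_mul_of_nonneg_right h4 h1) _
      · have h0 : max (v x - u x - e) 0 * (1 - φ x) = 0 := by
          by_cases hxb : x ∈ O
          · rw [hx hxb hxΩ]
            simp
          · have h2 : ¬ s ≤ Metric.infDist x Ωᶜ := hxK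
            have h3 := hstrip x hxΩ (by linarith [not_le.1 h2]) hxb
            rw [max_eq_right (by linarith), zero_mul]
        rw [h0, indicator_of_notMem hxK]
        simp
    · rw [indicator_of_notMem hxΩ]
      simp
  calc eLpNorm (Ω.indicator fun x => (max (v x - u x - e) 0 * (1 - φ x)) ^ (N + 1)) (ENNReal.ofReal p) μ
      ≤ ENNReal.ofReal CF * eLpNorm TT (ENNReal.ofReal p) μ := hmono.trans hF
    _ ≤ ENNReal.ofReal CF * (ENNReal.ofReal C0 * eLpNorm Φ (ENNReal.ofReal p) μ) := by gcongr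
    _ = ENNReal.ofReal (CF * C0) * eLpNorm Φ (ENNReal.ofReal p) μ := by
        rw [ENNReal.ofReal_mul hCF, mul_assoc]


theorem main_ae' (hp : 1 < p) (hα : 0 < α) (hβ : 0 < β) {μ : Measure (Sp n)}
    [IsFiniteMeasureOnCompacts μ] {A : Sp n → Sp n → Sp n} (hA : Op p α β μ A)
    (hadm : Adm p μ Cd θ Cs lam Cp) {Ω : Set (Sp n)} (hΩ : IsOpen Ω) (hΩb : Bornology.IsBounded Ω)
    (hn : Ωᶜ.Nonempty) {u v : Sp n → ℝ} {m : ℝ} (hm0 : 0 ≤ m) (hmu : ∀ x ∈ Ω, |u x| ≤ m)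
    (hmv : ∀ x ∈ Ω, |v x| ≤ m) (hul : LowerSemicontinuousOn u Ω) (hvl : UpperSemicontinuousOn v Ω)
    (hu : CmpSuper A p μ Ω u) (hv : CmpSuper A p μ Ω (fun x => - v x)) {E : Set (Sp n)}
    (hbd : ∀ y ∈ frontier Ω, y ∉ E → ∀ e : ℝ, 0 < e → ∃ r > 0, ∀ x ∈ Ω, x ∈ Metric.ball y r →
      v x < u x + e)
    (hcap : Cut p μ Ω E) :
    ∀ᵐ x ∂μ, x ∈ Ω → v x ≤ u x := by
  obtain ⟨N, C, hC, hen⟩ := energy_bound' hp hα hβ hA hadm hΩ hΩb hn hm0 hmu hmv hul hvl hu hv hbd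
  have hp1 : (1 : ℝ≥0∞) ≤ ENNReal.ofReal p := by
    rw [← ENNReal.ofReal_one]
    exact ENNReal.ofReal_le_ofReal hp.le
  have hp0 : ENNReal.ofReal p ≠ 0 := by
    intro h
    rw [h] at hp1
    exact absurd hp1 (by simp)
  have key : ∀ e : ℝ, 0 < e → ∀ᵐ x ∂μ, x ∈ Ω → v x ≤ u x + e := by
    intro e he
    have hmeas := mae_meas hΩ hul hvl e (N + 1)
    have hz : eLpNorm (Ω.indicator fun x => (max (v x - u x - e) 0) ^ (N + 1))
        (ENNReal.ofReal p) μ = 0 := by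
      apply mae_zero (K := 2 ^ (N + 1) * C + 2 * (2 * m) ^ (N + 1)) (by positivity)
      intro δ hδ
      obtain ⟨φ, Φ, hφ, hφm, hφM, h01, hr, hn1, hn2⟩ := hcap δ hδ
      have hb := hen e he φ Φ hφ hφM h01 hr
      set I : Sp n → ℝ := Ω.indicator fun x => (max (v x - u x - e) 0 * (1 - φ x)) ^ (N + 1)
        with hI
      have hIm : AEStronglyMeasurable I μ := by
        have : I = fun x => (Ω.indicator fun x => (max (v x - u x - e) 0) ^ (N + 1)) x
            * (1 - φ x) ^ (N + 1) := by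
          funext x
          rw [hI]
          by_cases hx : x ∈ Ω
          · rw [Set.indicator_of_mem hx, Set.indicator_of_mem hx, mul_pow]
          · rw [Set.indicator_of_notMem hx, Set.indicator_of_notMem hx, zero_mul]
        rw [this]
        exact hmeas.aestronglyMeasurable.mul ((aestronglyMeasurable_const.sub hφm).pow (N + 1))
      have hle : ∀ᵐ x ∂μ, ‖(Ω.indicator fun x => (max (v x - u x - e) 0) ^ (N + 1)) x‖
          ≤ (((2 : ℝ) ^ (N + 1)) • I + (2 * (2 * m) ^ (N + 1)) • φ) x := by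
        filter_upwards [h01] with x hx
        simp only [Pi.add_apply, Pi.smul_apply, smul_eq_mul]
        have hφ0 : 0 ≤ (2 * (2 * m) ^ (N + 1)) * φ x := by
          have := hx.1
          positivity
        by_cases hxO : x ∈ Ω
        · rw [hI, Set.indicator_of_mem hxO, Set.indicator_of_mem hxO, Real.norm_eq_abs,
            abs_of_nonneg (by positivity)]
          apply mae_point (N + 1) (le_max_right _ _) _ hx.1 hx.2
          apply max_le
          · have a1 := abs_le.mp (hmu x hxO)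
            have a2 := abs_le.mp (hmv x hxO)
            linarith [a1.1, a2.2]
          · linarith
        · rw [hI, Set.indicator_of_notMem hxO, Set.indicator_of_notMem hxO, norm_zero, mul_zero,
            zero_add]
          exact hφ0
      calc eLpNorm (Ω.indicator fun x => (max (v x - u x - e) 0) ^ (N + 1)) (ENNReal.ofReal p) μ
          ≤ eLpNorm (((2 : ℝ) ^ (N + 1)) • I + (2 * (2 * m) ^ (N + 1)) • φ) (ENNReal.ofReal p) μ :=
            eLpNorm_mono_ae_real hle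
        _ ≤ eLpNorm (((2 : ℝ) ^ (N + 1)) • I) (ENNReal.ofReal p) μ
            + eLpNorm ((2 * (2 * m) ^ (N + 1)) • φ) (ENNReal.ofReal p) μ :=
            eLpNorm_add_le (hIm.const_smul _) (hφm.const_smul _) hp1
        _ = ENNReal.ofReal (2 ^ (N + 1)) * eLpNorm I (ENNReal.ofReal p) μ
            + ENNReal.ofReal (2 * (2 * m) ^ (N + 1)) * eLpNorm φ (ENNReal.ofReal p) μ := by
            rw [eLpNorm_const_smul, eLpNorm_const_smul, Real.enorm_eq_ofReal (by positivity),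
              Real.enorm_eq_ofReal (by positivity)]
        _ ≤ ENNReal.ofReal (2 ^ (N + 1)) * (ENNReal.ofReal C * ENNReal.ofReal δ)
            + ENNReal.ofReal (2 * (2 * m) ^ (N + 1)) * ENNReal.ofReal δ := by
            gcongr
            exact hb.trans (by gcongr)
        _ = ENNReal.ofReal ((2 ^ (N + 1) * C + 2 * (2 * m) ^ (N + 1)) * δ) := by
            rw [← ENNReal.ofReal_mul hC, ← ENNReal.ofReal_mul (by positivity),
              ← ENNReal.ofReal_mul (by positivity), ← ENNReal.ofReal_add (by positivity)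
              (by positivity)]
            congr 1
            ring
    rw [eLpNorm_eq_zero_iff hmeas.aestronglyMeasurable hp0] at hz
    filter_upwards [hz] with x hx hxO
    rw [Set.indicator_of_mem hxO, Pi.zero_apply] at hx
    have := eq_zero_of_pow_eq_zero hx
    have h2 := le_max_left (v x - u x - e) 0
    linarith
  have hall : ∀ᵐ x ∂μ, ∀ k : ℕ, x ∈ Ω → v x ≤ u x + 1 / ((k : ℝ) + 1) := by
    rw [ae_all_iff]
    intro k
    exact key _ (by positivity)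
  filter_upwards [hall] with x hx hxO
  have hlim : Tendsto (fun k : ℕ => u x + 1 / ((k : ℝ) + 1)) atTop (𝓝 (u x + 0)) :=
    tendsto_const_nhds.add tendsto_one_div_add_atTop_nhds_zero_nat
  rw [add_zero] at hlim
  exact ge_of_tendsto' hlim (fun k => hx k hxO)


theorem main_internal' (hp : 1 < p) (hα : 0 < α) (hβ : 0 < β) {μ : Measure (Sp n)}
    [IsFiniteMeasureOnCompacts μ] {A : Sp n → Sp n → Sp n} (hA : Op p α β μ A)
    (hadm : Adm p μ Cd θ Cs lam Cp) {Ω : Set (Sp n)} (hΩ : IsOpen Ω) (hΩb : Bornology.IsBounded Ω)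
    (hn : Ωᶜ.Nonempty) {u v : Sp n → ℝ} {m : ℝ} (hm0 : 0 ≤ m) (hmu : ∀ x ∈ Ω, |u x| ≤ m)
    (hmv : ∀ x ∈ Ω, |v x| ≤ m) (hul : LowerSemicontinuousOn u Ω) (hvl : UpperSemicontinuousOn v Ω)
    (hu : CmpSuper A p μ Ω u) (hv : CmpSuper A p μ Ω (fun x => - v x)) {E : Set (Sp n)}
    (hbd : ∀ y ∈ frontier Ω, y ∉ E → ∀ e : ℝ, 0 < e → ∃ r > 0, ∀ x ∈ Ω, x ∈ Metric.ball y r →
      v x < u x + e)
    (hcap : Cut p μ Ω E) :
    ∀ x ∈ Ω, v x ≤ u x := by
  have hae := main_ae' hp hα hβ hA hadm hΩ hΩb hn hm0 hmu hmv hul hvl hu hv hbd hcap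
  intro x hx
  by_contra hcon
  push Not at hcon
  have ht0 : 0 < (v x - u x) / 3 := by linarith
  obtain ⟨r1, hr1, h1⟩ := approx_upper hp hα hβ hA hadm hΩ hΩb hn hm0 hmu hul hu x hx _ ht0
  have hvl' : LowerSemicontinuousOn (fun y => - v y) Ω := by
    intro y hy a ha
    have h0 : v y < -a := by linarith
    filter_upwards [hvl y hy (-a) h0] with z hz
    linarith
  obtain ⟨r2, hr2, h2⟩ := approx_upper hp hα hβ hA hadm hΩ hΩb hn hm0
    (u := fun y => - v y) (fun y hy => by rw [abs_neg]; exact hmv y hy) hvl' hv x hx _ ht0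
  obtain ⟨r3, hr3, h3⟩ := Metric.isOpen_iff.1 hΩ x hx
  set r := min r1 (min r2 r3) with hr
  have hr0 : 0 < r := lt_min hr1 (lt_min hr2 hr3)
  have k1 := h1 r hr0 (min_le_left _ _)
  have k2 := h2 r hr0 ((min_le_right _ _).trans (min_le_left _ _))
  have hB : Metric.ball x r ⊆ Ω :=
    (Metric.ball_subset_ball ((min_le_right _ _).trans (min_le_right _ _))).trans h3
  set S1 := {y | y ∈ Metric.ball x r ∧ u x + (v x - u x) / 3 < u y} with hS1
  set S2 := {y | y ∈ Metric.ball x r ∧ (fun y => - v y) x + (v x - u x) / 3 < (fun y => - v y) y}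
    with hS2
  set N := {y | ¬ (y ∈ Ω → v y ≤ u y)} with hN
  have hN0 : μ N = 0 := ae_iff.1 hae
  have hsub : Metric.ball x r ⊆ (S1 ∪ S2) ∪ N := by
    intro y hy
    by_cases hy1 : y ∈ S1
    · exact Or.inl (Or.inl hy1)
    by_cases hy2 : y ∈ S2
    · exact Or.inl (Or.inr hy2)
    refine Or.inr ?_
    intro hcon2
    have h4 := hcon2 (hB hy)
    have h5 : u y ≤ u x + (v x - u x) / 3 := by
      by_contra h6
      exact hy1 ⟨hy, not_le.1 h6⟩
    have h6 : - v y ≤ - v x + (v x - u x) / 3 := by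
      by_contra h7
      exact hy2 ⟨hy, not_le.1 h7⟩
    linarith
  have hfin := (hadm.fin x r).ne
  have hS1f : μ S1 ≠ ∞ := ne_top_of_le_ne_top hfin (measure_mono fun y hy => hy.1)
  have hS2f : μ S2 ≠ ∞ := ne_top_of_le_ne_top hfin (measure_mono fun y hy => hy.1)
  have h4 : μ (Metric.ball x r) ≤ μ S1 + μ S2 := by
    calc μ (Metric.ball x r) ≤ μ ((S1 ∪ S2) ∪ N) := measure_mono hsub
      _ ≤ μ (S1 ∪ S2) + μ N := measure_union_le _ _
      _ ≤ (μ S1 + μ S2) + μ N := add_le_add_left (measure_union_le _ _) _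
      _ = μ S1 + μ S2 := by rw [hN0, add_zero]
  have h5 : μ.real (Metric.ball x r) ≤ μ.real S1 + μ.real S2 := by
    have := ENNReal.toReal_mono (ENNReal.add_ne_top.2 ⟨hS1f, hS2f⟩) h4
    rwa [ENNReal.toReal_add hS1f hS2f] at this
  have h6 : 0 < μ.real (Metric.ball x r) := ENNReal.toReal_pos (hadm.pos x r hr0).ne' hfin
  linarith


end Pool.Agent.KS6_83.PN
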