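import Pool.Agent.KS6_83.PN.B

/-!
Sets of zero capacity relative to an open set.
-/

set_option autoImplicit false

open MeasureTheory Filter Topology Set
open scoped ENNReal NNReal RealInnerProductSpace

namespace Pool.Agent.KS6_83.PN

open Pool.Agent.Helper533.Polar

variable {n : ℕ} {p : ℝ} {μ : Measure (Sp n)} {Ω : Set (Sp n)}

/-- The `(p, μ)`-capacity of `E` relative to `Ω`: the infimum of `∫_Ω (|φ|^p + |∇φ|^p) dμ` over the
functions `φ ∈ H^{1,p}(Ω; μ)` which are equal to one in `O ∩ Ω` for some open set `O ⊇ E`. -/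
noncomputable def relCap (p : ℝ) (μ : Measure (Sp n)) (Ω E : Set (Sp n)) : ℝ≥0∞ :=
  ⨅ (φ : Sp n → ℝ) (Φ : Sp n → Sp n) (_ : Stmt.IsH1 p μ Ω φ Φ)
    (_ : ∃ O : Set (Sp n), IsOpen O ∧ E ⊆ O ∧ ∀ᵐ x ∂(μ.restrict (O ∩ Ω)), φ x = 1),
    ∫⁻ x in Ω, (‖φ x‖ₑ ^ p + ‖Φ x‖ₑ ^ p) ∂μ

theorem isH1_restrict {φ : Sp n → ℝ} {Φ : Sp n → Sp n} (h : Stmt.IsH1 p μ univ φ Φ) :
    Stmt.IsH1 p μ Ω φ Φ := by
  have h1 : μ.restrict Ω ≤ μ.restrict univ := by
    rw [Measure.restrict_univ]
    exact Measure.restrict_le_self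
  refine ⟨h.memLp_fun.mono_measure h1, h.memLp_grad.mono_measure h1, ?_⟩
  intro ε hε
  obtain ⟨ψ, hψ, a1, a2⟩ := h.approx ε hε
  exact ⟨ψ, hψ.mono (subset_univ _), (eLpNorm_mono_measure _ h1).trans a1,
    (eLpNorm_mono_measure _ h1).trans a2⟩

theorem relCap_le_cap (E : Set (Sp n)) : relCap p μ Ω E ≤ Stmt.cap p μ E := by
  unfold Stmt.cap
  refine le_iInf fun φ => le_iInf fun Φ => le_iInf fun h => le_iInf fun hO => ?_
  obtain ⟨O, hO1, hO2, hO3⟩ := hO
  have hO4 : ∀ᵐ x ∂(μ.restrict (O ∩ Ω)), φ x = 1 :=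
    ae_mono (Measure.restrict_mono inter_subset_left le_rfl) hO3
  have key : relCap p μ Ω E ≤ ∫⁻ x in Ω, (‖φ x‖ₑ ^ p + ‖Φ x‖ₑ ^ p) ∂μ := by
    unfold relCap
    exact iInf_le_of_le φ (iInf_le_of_le Φ (iInf_le_of_le (isH1_restrict h)
      (iInf_le_of_le ⟨O, hO1, hO2, hO4⟩ le_rfl)))
  exact key.trans (lintegral_mono' Measure.restrict_le_self le_rfl)

theorem relCap_mono {E E' : Set (Sp n)} (h : E ⊆ E') : relCap p μ Ω E ≤ relCap p μ Ω E' := by
  unfold relCap
  refine le_iInf fun φ => le_iInf fun Φ => le_iInf fun h1 => le_iInf fun hO => ?_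
  obtain ⟨O, hO1, hO2, hO3⟩ := hO
  exact iInf_le_of_le φ (iInf_le_of_le Φ (iInf_le_of_le h1 (iInf_le_of_le ⟨O, hO1, h.trans hO2, hO3⟩ le_rfl)))

theorem small_scale {C : ℝ} {ε : ℝ≥0∞} (hε : ε ≠ 0) :
    ∃ δ : ℝ≥0∞, δ ≠ 0 ∧ ENNReal.ofReal C * δ + ENNReal.ofReal C * δ ≤ ε := by
  have ht : Tendsto (fun j : ℕ => ENNReal.ofReal C * ((j : ℝ≥0∞) + 1)⁻¹ +
      ENNReal.ofReal C * ((j : ℝ≥0∞) + 1)⁻¹) atTop (𝓝 0) := by
    have h0 : Tendsto (fun j : ℕ => ((j : ℝ≥0∞) + 1)⁻¹) atTop (𝓝 0) := by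
      have := (tendsto_add_atTop_iff_nat (f := fun j : ℕ => ((j : ℝ≥0∞))⁻¹) 1).2
        ENNReal.tendsto_inv_nat_nhds_zero
      simpa using this
    have h1 : Tendsto (fun j : ℕ => ENNReal.ofReal C * ((j : ℝ≥0∞) + 1)⁻¹) atTop (𝓝 0) := by
      have := ENNReal.Tendsto.const_mul (a := ENNReal.ofReal C) h0 (Or.inr ENNReal.ofReal_ne_top)
      simpa using this
    simpa using h1.add h1
  obtain ⟨j, hj, -⟩ := exists_le_of_tendsto ht ht hε
  exact ⟨_, by simp, hj⟩

/-- elements of `H^{1,p}(Ω; μ)` are in the local class -/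
theorem LH_of_isH1 [IsFiniteMeasureOnCompacts μ] (hp : 1 < p) (hΩ : IsOpen Ω) {u : Sp n → ℝ}
    {U : Sp n → Sp n} (h : Stmt.IsH1 p μ Ω u U) : LH p μ Ω u U := by
  intro η hη
  obtain ⟨C, hC0, hC1, hC2⟩ := Cc.bdd (hη.mono (subset_univ _))
  have hΩm : MeasurableSet Ω := hΩ.measurableSet
  have hη0 : ∀ x, x ∉ Ω → η x = 0 := fun x hx => zero_of_notMem fun hc => hx (hη.supp hc)
  have hg0 : ∀ x, x ∉ Ω → gradient η x = 0 := fun x hx => grad_zero_of_notMem fun hc => hx (hη.supp hc)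
  have hu : MemLp (Ω.indicator u) (ENNReal.ofReal p) μ := (memLp_indicator_iff_restrict hΩm).2 h.memLp_fun
  have hU : MemLp (Ω.indicator U) (ENNReal.ofReal p) μ := (memLp_indicator_iff_restrict hΩm).2 h.memLp_grad
  have hηm : AEStronglyMeasurable η μ := hη.cont.aestronglyMeasurable
  have hgm : AEStronglyMeasurable (gradient η) μ := hη.cont_grad.aestronglyMeasurable
  have hp1 : 1 ≤ ENNReal.ofReal p := by
    rw [← ENNReal.ofReal_one]; exact ENNReal.ofReal_le_ofReal hp.le
  have e1 : (fun x => η x * u x) = fun x => η x * Ω.indicator u x := by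
    funext x
    by_cases hx : x ∈ Ω
    · rw [indicator_of_mem hx]
    · rw [hη0 x hx, zero_mul, zero_mul]
  have e2 : (fun x => η x • U x + u x • gradient η x) =
      fun x => η x • Ω.indicator U x + Ω.indicator u x • gradient η x := by
    funext x
    by_cases hx : x ∈ Ω
    · rw [indicator_of_mem hx, indicator_of_mem hx]
    · rw [hη0 x hx, hg0 x hx, zero_smul, zero_smul, smul_zero, smul_zero]
  refine ⟨?_, ?_, ?_⟩
  · rw [e1]
    refine MemLp.of_le_mul (c := C) hu (hηm.mul hu.1) (ae_of_all _ fun x => ?_)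
    rw [norm_mul]
    exact mul_le_mul_of_nonneg_right (hC1 x) (norm_nonneg _)
  · rw [e2]
    refine MemLp.add ?_ ?_
    · refine MemLp.of_le_mul (c := C) hU (hηm.smul hU.1) (ae_of_all _ fun x => ?_)
      rw [norm_smul]
      exact mul_le_mul_of_nonneg_right (hC1 x) (norm_nonneg _)
    · refine MemLp.of_le_mul (c := C) hu (hu.1.smul hgm) (ae_of_all _ fun x => ?_)
      rw [norm_smul, mul_comm]
      exact mul_le_mul_of_nonneg_right (hC2 x) (norm_nonneg _)
  · intro ε hε
    obtain ⟨δ, hδ0, hδ⟩ := small_scale (C := C) hε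
    obtain ⟨ψ, hψ, a1, a2⟩ := h.approx δ hδ0
    have hψd : ∀ x ∈ Ω, DifferentiableAt ℝ ψ x := fun x hx =>
      ((hψ x hx).contDiffAt (hΩ.mem_nhds hx)).differentiableAt (by simp)
    have hψc : ContinuousOn ψ Ω := hψ.continuousOn
    have hψg : ContinuousOn (gradient ψ) Ω := by
      have h1 : ContinuousOn (fun x => fderiv ℝ ψ x) Ω := hψ.continuousOn_fderiv_of_isOpen hΩ (by simp)
      exact (InnerProductSpace.toDual ℝ (Sp n)).symm.continuous.comp_continuousOn h1
    have m1 : AEStronglyMeasurable (Ω.indicator fun x => u x - ψ x) μ :=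
      (aestronglyMeasurable_indicator_iff hΩm).2 (h.memLp_fun.1.sub (hψc.aestronglyMeasurable hΩm))
    have m2 : AEStronglyMeasurable (Ω.indicator fun x => U x - gradient ψ x) μ :=
      (aestronglyMeasurable_indicator_iff hΩm).2 (h.memLp_grad.1.sub (hψg.aestronglyMeasurable hΩm))
    have n1 : eLpNorm (Ω.indicator fun x => u x - ψ x) (ENNReal.ofReal p) μ ≤ δ := by
      rw [eLpNorm_indicator_eq_eLpNorm_restrict hΩm]
      exact a1
    have n2 : eLpNorm (Ω.indicator fun x => U x - gradient ψ x) (ENNReal.ofReal p) μ ≤ δ := by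
      rw [eLpNorm_indicator_eq_eLpNorm_restrict hΩm]
      exact a2
    have hsm : ContDiff ℝ (⊤ : ℕ∞) fun x => η x * ψ x := by
      rw [contDiff_iff_contDiffAt]
      intro x
      by_cases hx : x ∈ Ω
      · exact hη.smooth.contDiffAt.mul ((hψ x hx).contDiffAt (hΩ.mem_nhds hx))
      · have hx' : x ∉ tsupport η := fun hc => hx (hη.supp hc)
        have hev : (fun x => η x * ψ x) =ᶠ[𝓝 x] fun _ => 0 := by
          filter_upwards [notMem_tsupport_iff_eventuallyEq.1 hx'] with y hy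
          rw [hy, Pi.zero_apply, zero_mul]
        exact contDiffAt_const.congr_of_eventuallyEq hev
    have hsupp : tsupport (fun x => η x * ψ x) ⊆ tsupport η := tsupport_mul_subset_left
    refine ⟨fun x => η x * ψ x, ⟨hsm, hη.comp.mul_right, hsupp.trans hη.supp⟩, ?_, ?_⟩
    · have : eLpNorm (fun x => η x * u x - η x * ψ x) (ENNReal.ofReal p) μ ≤
          ENNReal.ofReal C * eLpNorm (Ω.indicator fun x => u x - ψ x) (ENNReal.ofReal p) μ := by
        apply eLpNorm_le_mul_eLpNorm_of_ae_le_mul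
        refine ae_of_all _ fun x => ?_
        by_cases hx : x ∈ Ω
        · rw [indicator_of_mem hx, ← mul_sub, norm_mul]
          exact mul_le_mul_of_nonneg_right (hC1 x) (norm_nonneg _)
        · rw [hη0 x hx, zero_mul, zero_mul, sub_zero, norm_zero]
          exact mul_nonneg hC0 (norm_nonneg _)
      refine this.trans (le_trans ?_ hδ)
      exact (mul_le_mul_right n1 _).trans le_self_add
    · have e3 : (fun x => η x • U x + u x • gradient η x - gradient (fun x => η x * ψ x) x) =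
          (fun x => η x • (Ω.indicator (fun x => U x - gradient ψ x) x)) +
            (fun x => (Ω.indicator (fun x => u x - ψ x) x) • gradient η x) := by
        funext x
        rw [Pi.add_apply]
        by_cases hx : x ∈ Ω
        · rw [indicator_of_mem hx, indicator_of_mem hx, grad_mul (hη.diff x) (hψd x hx)]
          simp only [smul_sub, sub_smul]
          abel
        · have hx' : x ∉ tsupport (fun x => η x * ψ x) := fun hc => hx (hη.supp (hsupp hc))
          rw [hη0 x hx, hg0 x hx, grad_zero_of_notMem hx', zero_smul, zero_smul, smul_zero, smul_zero,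
            sub_zero]
      rw [e3]
      refine (eLpNorm_add_le ?_ ?_ hp1).trans (le_trans (add_le_add ?_ ?_) hδ)
      · exact hηm.smul m2
      · exact m1.smul hgm
      · have : eLpNorm (fun x => η x • (Ω.indicator (fun x => U x - gradient ψ x) x)) (ENNReal.ofReal p) μ ≤
            ENNReal.ofReal C * eLpNorm (Ω.indicator fun x => U x - gradient ψ x) (ENNReal.ofReal p) μ := by
          apply eLpNorm_le_mul_eLpNorm_of_ae_le_mul
          refine ae_of_all _ fun x => ?_
          rw [norm_smul]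
          exact mul_le_mul_of_nonneg_right (hC1 x) (norm_nonneg _)
        exact this.trans (mul_le_mul_right n2 _)
      · have : eLpNorm (fun x => (Ω.indicator (fun x => u x - ψ x) x) • gradient η x) (ENNReal.ofReal p) μ ≤
            ENNReal.ofReal C * eLpNorm (Ω.indicator fun x => u x - ψ x) (ENNReal.ofReal p) μ := by
          apply eLpNorm_le_mul_eLpNorm_of_ae_le_mul
          refine ae_of_all _ fun x => ?_
          rw [norm_smul, mul_comm]
          exact mul_le_mul_of_nonneg_right (hC2 x) (norm_nonneg _)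
        exact this.trans (mul_le_mul_right n1 _)

/-- sets of zero relative capacity have good cutoff functions -/
theorem cut_of_relCap [IsFiniteMeasureOnCompacts μ] (hp : 1 < p) (hΩ : IsOpen Ω) {E : Set (Sp n)}
    (h : relCap p μ Ω E = 0) : Cut p μ Ω E := by
  intro e he
  have hp0 : 0 < p := by linarith
  have hΩm : MeasurableSet Ω := hΩ.measurableSet
  set δ : ℝ≥0∞ := (ENNReal.ofReal e) ^ p with hδ
  have hδ0 : 0 < δ := ENNReal.rpow_pos (ENNReal.ofReal_pos.2 he) ENNReal.ofReal_ne_top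
  have hlt : relCap p μ Ω E < δ := by rw [h]; exact hδ0
  unfold relCap at hlt
  simp only [iInf_lt_iff] at hlt
  obtain ⟨φ, Φ, hφ, ⟨O, hO, hxO, hφ1⟩, hint⟩ := hlt
  have hpne : ENNReal.ofReal p ≠ 0 := by
    rw [Ne, ENNReal.ofReal_eq_zero, not_le]; exact hp0
  have key : ∀ {F : Type} [NormedAddCommGroup F] (f : Sp n → F), (∫⁻ x in Ω, ‖f x‖ₑ ^ p ∂μ) ≤ δ →
      eLpNorm f (ENNReal.ofReal p) (μ.restrict Ω) ≤ ENNReal.ofReal e := by
    intro F _ f hf
    rw [eLpNorm_eq_lintegral_rpow_enorm_toReal hpne ENNReal.ofReal_ne_top,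
      ENNReal.toReal_ofReal hp0.le]
    calc (∫⁻ x in Ω, ‖f x‖ₑ ^ p ∂μ) ^ (1 / p) ≤ δ ^ (1 / p) :=
          ENNReal.rpow_le_rpow hf (by positivity)
      _ = ENNReal.ofReal e := by
          rw [hδ, ← ENNReal.rpow_mul, mul_one_div_cancel hp0.ne', ENNReal.rpow_one]
  have b1 : eLpNorm φ (ENNReal.ofReal p) (μ.restrict Ω) ≤ ENNReal.ofReal e :=
    key φ ((lintegral_mono fun x => le_self_add).trans hint.le)
  have b2 : eLpNorm Φ (ENNReal.ofReal p) (μ.restrict Ω) ≤ ENNReal.ofReal e :=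
    key Φ ((lintegral_mono fun x => le_add_self).trans hint.le)
  have hL := LH_of_isH1 hp hΩ hφ
  obtain ⟨β0, p1, p2, p3, p4, p5, p6, -⟩ := exists_profile 0 le_rfl
  obtain ⟨β1, q1, q2, q3, q4, q5, q6, -⟩ := exists_profile 1 zero_le_one
  have hh0 := LH.chain_lim (C := 1) hp hΩ p1
    (fun k s => abs_le.2 ⟨by linarith [(p4 k s).1], (p4 k s).2⟩) p5 p6 hL
  have hh1 := LH.chain_lim (C := 1) hp hΩ q1
    (fun k s => abs_le.2 ⟨by linarith [(q4 k s).1], (q4 k s).2⟩) q5 q6 hL
  have hτ := LH.sub hp hh0 hh1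
  set g : Sp n → ℝ := fun x => max (φ x - 0) 0 - max (φ x - 1) 0 with hg
  set G' : Sp n → Sp n := fun x => (if 0 < φ x then (1 : ℝ) else 0) • Φ x -
    (if 1 < φ x then (1 : ℝ) else 0) • Φ x with hG'
  have g01 : ∀ x, 0 ≤ g x ∧ g x ≤ 1 := by
    intro x
    rw [hg]
    simp only [sub_zero]
    rcases le_total (φ x) 0 with h1 | h1
    · rw [max_eq_right h1, max_eq_right (by linarith)]; norm_num
    · rcases le_total (φ x) 1 with h2 | h2
      · rw [max_eq_left h1, max_eq_right (by linarith)]; exact ⟨by linarith, by linarith⟩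
      · rw [max_eq_left h1, max_eq_left (by linarith)]; exact ⟨by linarith, by linarith⟩
  have gle : ∀ x, ‖g x‖ ≤ ‖φ x‖ := by
    intro x
    rw [hg]
    simp only [sub_zero, Real.norm_eq_abs]
    rcases le_total (φ x) 0 with h1 | h1
    · rw [max_eq_right h1, max_eq_right (by linarith)]; simp
    · rcases le_total (φ x) 1 with h2 | h2
      · rw [max_eq_left h1, max_eq_right (by linarith), sub_zero]
      · rw [max_eq_left h1, max_eq_left (by linarith), sub_sub_cancel, abs_one,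
          abs_of_nonneg h1]
        exact h2
  have Gle : ∀ x, ‖G' x‖ ≤ ‖Φ x‖ := by
    intro x
    rw [hG']
    simp only
    rw [← sub_smul, norm_smul]
    have h10 : ‖(if 0 < φ x then (1:ℝ) else 0) - (if 1 < φ x then (1:ℝ) else 0)‖ ≤ 1 := by
      split_ifs <;> simp
    calc _ ≤ 1 * ‖Φ x‖ := mul_le_mul_of_nonneg_right h10 (norm_nonneg _)
      _ = ‖Φ x‖ := one_mul _
  have hφm : AEStronglyMeasurable φ (μ.restrict Ω) := hφ.memLp_fun.1
  have hgm : AEStronglyMeasurable g (μ.restrict Ω) := by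
    have h1 : Continuous fun s : ℝ => max (s - 0) 0 - max (s - 1) 0 := by fun_prop
    exact h1.comp_aestronglyMeasurable hφm
  have hi0 : ∀ c : ℝ, AEStronglyMeasurable (fun x => if c < φ x then (1 : ℝ) else 0) (μ.restrict Ω) := by
    intro c
    have h1 : Measurable fun s : ℝ => if c < s then (1 : ℝ) else 0 :=
      Measurable.ite measurableSet_Ioi measurable_const measurable_const
    exact (h1.comp_aemeasurable hφm.aemeasurable).aestronglyMeasurable
  have hGm : AEStronglyMeasurable G' (μ.restrict Ω) :=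
    ((hi0 0).smul hφ.memLp_grad.1).sub ((hi0 1).smul hφ.memLp_grad.1)
  refine ⟨Ω.indicator g, Ω.indicator G', ?_, (aestronglyMeasurable_indicator_iff hΩm).2 hgm, ?_, ?_,
    ⟨O, hO, hxO, ?_⟩, ?_, ?_⟩
  · refine LH.congr hτ (ae_of_all _ fun x hx => ?_) (ae_of_all _ fun x hx => ?_)
    · rw [indicator_of_mem hx]
    · rw [indicator_of_mem hx]
  · rw [memLp_indicator_iff_restrict hΩm]
    exact hφ.memLp_grad.mono hGm (ae_of_all _ Gle)
  · refine ae_of_all _ fun x => ?_
    by_cases hx : x ∈ Ω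
    · rw [indicator_of_mem hx]
      exact g01 x
    · rw [indicator_of_notMem hx]
      norm_num
  · have h3 := (ae_restrict_iff' (hO.inter hΩ).measurableSet).1 hφ1
    filter_upwards [h3] with x hx hxO hxΩ
    rw [indicator_of_mem hxΩ, hg]
    simp only [hx ⟨hxO, hxΩ⟩]
    norm_num
  · rw [eLpNorm_indicator_eq_eLpNorm_restrict hΩm]
    exact (eLpNorm_mono gle).trans b1
  · rw [eLpNorm_indicator_eq_eLpNorm_restrict hΩm]
    exact (eLpNorm_mono Gle).trans b2

end Pool.Agent.KS6_83.PN
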