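import Pool.Agent.KS6_83.PN.C

/-!
Comparison of continuous weak solutions; truncation of super- and subharmonic functions.
-/

set_option autoImplicit false

open MeasureTheory Filter Topology Set
open scoped ENNReal NNReal RealInnerProductSpace

namespace Pool.Agent.KS6_83.PN

open Pool.Agent.Helper533.Polar

variable {n : ℕ} {p α β Cd θ Cs lam Cp : ℝ}

/-- the classical comparison principle for continuous weak solutions -/
theorem cmp_weak (hp : 1 < p) {μ : Measure (Sp n)} [IsFiniteMeasureOnCompacts μ]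
    {A : Sp n → Sp n → Sp n} (hA : Op p α β μ A)
    (hstr : ∀ᵐ x ∂μ, ∀ ξ ζ : Sp n, ξ ≠ ζ → 0 < ⟪A x ξ - A x ζ, ξ - ζ⟫)
    (hadm : Adm p μ Cd θ Cs lam Cp) {G : Set (Sp n)} (hG : IsOpen G) (hGc : IsCompact (closure G))
    {h k : Sp n → ℝ} {H K : Sp n → Sp n} (hh : ContinuousOn h (closure G))
    (hk : ContinuousOn k (closure G)) (h1 : LH p μ G h H) (k1 : LH p μ G k K)
    (h2 : ∀ φ, Cc G φ → ∫ x, ⟪A x (H x), gradient φ x⟫ ∂μ = 0)
    (k2 : ∀ φ, Cc G φ → ∫ x, ⟪A x (K x), gradient φ x⟫ ∂μ = 0)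
    (hle : ∀ x ∈ frontier G, h x ≤ k x) : ∀ x ∈ G, h x ≤ k x := by
  have main : ∀ e : ℝ, 0 < e → ∀ x ∈ G, h x ≤ k x + e := by
    intro e he
    obtain ⟨Q, hQ⟩ : ∃ Q : Set (Sp n), Q = {x | x ∈ closure G ∧ e ≤ h x - k x} := ⟨_, rfl⟩
    have hQc : IsCompact Q := by
      have : IsClosed {x | x ∈ closure G ∧ e ≤ h x - k x} := by
        have h3 : ContinuousOn (fun x => h x - k x) (closure G) := hh.sub hk
        exact h3.preimage_isClosed_of_isClosed isClosed_closure isClosed_Ici
      rw [hQ]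
      exact hGc.of_isClosed_subset this fun x hx => hx.1
    have hQG : Q ⊆ G := by
      intro x hx
      rw [hQ] at hx
      by_contra hxG
      have hxf : x ∈ frontier G := by
        rw [hG.frontier_eq]
        exact ⟨hx.1, hxG⟩
      have h3 := hle x hxf
      have h4 : e ≤ h x - k x := hx.2
      linarith
    have hL := LH.pos_diff hp hG k1 h1 he
    set z : Sp n → ℝ := fun x => max (h x - k x - e) 0 with hz
    set Z : Sp n → Sp n := fun x => (if e < h x - k x then (1 : ℝ) else 0) • (H x - K x) with hZ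
    have hzQ : ∀ x ∈ G, x ∉ Q → z x = 0 ∧ Z x = 0 := by
      intro x hxG hxQ
      have h3 : h x - k x < e := by
        by_contra hc
        exact hxQ (by rw [hQ]; exact ⟨subset_closure hxG, not_lt.1 hc⟩)
      rw [hz, hZ]
      refine ⟨max_eq_right (by linarith), ?_⟩
      simp only
      rw [if_neg (by linarith), zero_smul]
    have hf : LH p μ G (Q.indicator z) (Q.indicator Z) := by
      refine LH.congr hL (ae_of_all _ fun x hx => ?_) (ae_of_all _ fun x hx => ?_)
      · by_cases hxQ : x ∈ Q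
        · rw [indicator_of_mem hxQ]
        · rw [indicator_of_notMem hxQ, (hzQ x hx hxQ).1]
      · by_cases hxQ : x ∈ Q
        · rw [indicator_of_mem hxQ]
        · rw [indicator_of_notMem hxQ, (hzQ x hx hxQ).2]
    have hf0 : ∀ᵐ x ∂μ, 0 ≤ Q.indicator z x := by
      refine ae_of_all _ fun x => ?_
      apply indicator_nonneg
      intro y _
      exact le_max_right _ _
    have hf1 : ∀ᵐ x ∂μ, x ∉ Q → Q.indicator z x = 0 := ae_of_all _ fun x hx => indicator_of_notMem hx _
    have hf1' : ∀ᵐ x ∂μ, x ∉ Q → Q.indicator Z x = 0 := ae_of_all _ fun x hx => indicator_of_notMem hx _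
    have hf2 : ∀ᵐ x ∂μ, Q.indicator z x = 0 → Q.indicator Z x = 0 := by
      refine ae_of_all _ fun x hx => ?_
      by_cases hxQ : x ∈ Q
      · rw [indicator_of_mem hxQ] at hx ⊢
        have h3 : h x - k x - e ≤ 0 := max_eq_right_iff.1 hx
        rw [hZ]
        simp only
        rw [if_neg (by linarith), zero_smul]
      · rw [indicator_of_notMem hxQ]
    have hH0 : H0 p μ G (Q.indicator z) (Q.indicator Z) := LH.toH0 hf hG hQc hQG hf1 hf1'
    have t1 : ∫ x, ⟪A x (H x), Q.indicator Z x⟫ ∂μ ≤ 0 :=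
      Sub.test hp hA ⟨h1, fun φ hφ _ => (h2 φ hφ).le⟩ hf hG hQc hQG hf0 hf1 hf2
    have t2 : 0 ≤ ∫ x, ⟪A x (K x), Q.indicator Z x⟫ ∂μ :=
      Sup.test hp hA ⟨k1, fun φ hφ _ => (k2 φ hφ).ge⟩ hf hG hQc hQG hf0 hf1 hf2
    have i1 := integrable_flux hp hA h1 hG hQc hQG hH0.mU hf1'
    have i2 := integrable_flux hp hA k1 hG hQc hQG hH0.mU hf1'
    have t3 : ∫ x, (⟪A x (H x), Q.indicator Z x⟫ - ⟪A x (K x), Q.indicator Z x⟫) ∂μ ≤ 0 := by
      rw [integral_sub i1 i2]
      linarith
    have hcase : ∀ᵐ x ∂μ, 0 ≤ ⟪A x (H x), Q.indicator Z x⟫ - ⟪A x (K x), Q.indicator Z x⟫ ∧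
        (⟪A x (H x), Q.indicator Z x⟫ - ⟪A x (K x), Q.indicator Z x⟫ = 0 → Q.indicator Z x = 0) := by
      filter_upwards [hstr] with x hx
      by_cases hxQ : x ∈ Q
      · rw [indicator_of_mem hxQ, hZ]
        simp only
        by_cases hc : e < h x - k x
        · rw [if_pos hc, one_smul, ← inner_sub_left]
          by_cases hHK : H x = K x
          · rw [hHK]
            simp
          · have := hx (H x) (K x) hHK
            exact ⟨this.le, fun h0 => absurd h0 this.ne'⟩
        · rw [if_neg hc, zero_smul]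
          simp
      · rw [indicator_of_notMem hxQ]
        simp
    have t4 : ∀ᵐ x ∂μ, ⟪A x (H x), Q.indicator Z x⟫ - ⟪A x (K x), Q.indicator Z x⟫ = 0 := by
      have h5 : 0 ≤ᵐ[μ] fun x => ⟪A x (H x), Q.indicator Z x⟫ - ⟪A x (K x), Q.indicator Z x⟫ := by
        filter_upwards [hcase] with x hx using hx.1
      have h6 : ∫ x, (⟪A x (H x), Q.indicator Z x⟫ - ⟪A x (K x), Q.indicator Z x⟫) ∂μ = 0 :=
        le_antisymm t3 (integral_nonneg_of_ae h5)
      have h7 := (integral_eq_zero_iff_of_nonneg_ae h5 (i1.sub i2)).1 h6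
      filter_upwards [h7] with x hx using hx
    have hZ0 : Q.indicator Z =ᵐ[μ] 0 := by
      filter_upwards [hcase, t4] with x hx hx' using hx.2 hx'
    obtain ⟨CF, hCF, hfr⟩ := friedrichs (D := G) hp hadm (hGc.isBounded.subset subset_closure)
    have h8 := hfr _ _ hH0
    rw [eLpNorm_congr_ae hZ0, eLpNorm_zero, mul_zero] at h8
    have hpne : ENNReal.ofReal p ≠ 0 := by
      rw [Ne, ENNReal.ofReal_eq_zero, not_le]; linarith
    have h9 := (eLpNorm_eq_zero_iff hH0.mu.1 hpne).1 (le_antisymm h8 zero_le)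
    have h10 : ∀ᵐ x ∂μ, x ∈ G → 0 ≤ k x + e - h x := by
      filter_upwards [h9] with x hx hxG
      by_contra hc
      have hc' : e < h x - k x := by linarith [not_le.1 hc]
      have hxQ : x ∈ Q := by rw [hQ]; exact ⟨subset_closure hxG, hc'.le⟩
      rw [indicator_of_mem hxQ, Pi.zero_apply] at hx
      have h11 : h x - k x - e ≤ 0 := max_eq_right_iff.1 hx
      linarith
    intro x hx
    have h12 := nonneg_of_ae hadm.pos hG (g := fun x => k x + e - h x)
      (((hk.mono subset_closure).add continuousOn_const).sub (hh.mono subset_closure)) h10 x hx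
    linarith
  intro x hx
  apply le_of_forall_pos_le_add
  intro e he
  exact main e he x hx

end Pool.Agent.KS6_83.PN
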