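import Pool.Agent.KS6_83.PN.D

/-!
Super- and subharmonic functions with values in `[-∞, ∞]`: truncation, harmonic functions,
boundedness from the behaviour at the boundary.
-/

set_option autoImplicit false

open MeasureTheory Filter Topology Set
open scoped ENNReal NNReal RealInnerProductSpace

namespace Pool.Agent.KS6_83.PN

open Pool.Agent.Helper533.Polar

variable {n : ℕ} {p α β : ℝ} {w : Sp n → ℝ} {𝒜 : Sp n → Sp n → Sp n} {Ω : Set (Sp n)}

/-- `u : Ω → (-∞, ∞]` is `𝒜`-superharmonic in `Ω`. -/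
structure IsSuper (𝒜 : Sp n → Sp n → Sp n) (p : ℝ) (w : Sp n → ℝ) (Ω : Set (Sp n))
    (u : Sp n → EReal) : Prop where
  ne_bot : ∀ x ∈ Ω, u x ≠ ⊥
  lsc : LowerSemicontinuousOn u Ω
  comparison : ∀ D : Set (Sp n), IsOpen D → IsCompact (closure D) → closure D ⊆ Ω →
    ∀ h : Sp n → ℝ, ContinuousOn h (closure D) → Stmt.IsHarmonic 𝒜 p w D h →
    (∀ x ∈ frontier D, (h x : EReal) ≤ u x) → ∀ x ∈ D, (h x : EReal) ≤ u x

/-- `v : Ω → [-∞, ∞)` is `𝒜`-subharmonic in `Ω`. -/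
structure IsSub (𝒜 : Sp n → Sp n → Sp n) (p : ℝ) (w : Sp n → ℝ) (Ω : Set (Sp n))
    (v : Sp n → EReal) : Prop where
  ne_top : ∀ x ∈ Ω, v x ≠ ⊤
  usc : UpperSemicontinuousOn v Ω
  comparison : ∀ D : Set (Sp n), IsOpen D → IsCompact (closure D) → closure D ⊆ Ω →
    ∀ h : Sp n → ℝ, ContinuousOn h (closure D) → Stmt.IsHarmonic 𝒜 p w D h →
    (∀ x ∈ frontier D, v x ≤ (h x : EReal)) → ∀ x ∈ D, v x ≤ (h x : EReal)

/-- the internal form of harmonicity -/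
theorem internal_of_harmonic (hp : 1 < p) (hw : Stmt.IsAdmissible p w)
    [IsFiniteMeasureOnCompacts (Stmt.wm w)] {D : Set (Sp n)} (hD : IsOpen D) {h : Sp n → ℝ}
    (hh : Stmt.IsHarmonic 𝒜 p w D h) :
    ∃ H : Sp n → Sp n, LH p (Stmt.wm w) D h H ∧
      ∀ φ, Cc D φ → ∫ x, ⟪(w x)⁻¹ • 𝒜 x (H x), gradient φ x⟫ ∂(Stmt.wm w) = 0 := by
  obtain ⟨-, H, hH, hint⟩ := hh
  refine ⟨H, ?_, ?_⟩
  · intro η hη
    obtain ⟨D', hD'o, hKD', hD'D, hD'c⟩ := exists_open_between_and_isCompact_closure hη.comp hD hη.supp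
    have h1 := LH_of_isH1 hp hD'o (hH D' hD'o hD'c hD'D)
    exact (h1 η ⟨hη.smooth, hη.comp, hKD'⟩).mono (subset_closure.trans hD'D)
  · intro φ hφ
    have h1 := hint φ (isTest_iff.2 hφ)
    have h2 := integral_wm hw (fun x => ⟪𝒜 x (H x), gradient φ x⟫)
    rw [h1] at h2
    rw [← h2]
    congr 1
    ext x
    rw [real_inner_smul_left]

/-- strict monotonicity of the internal operator -/
theorem strict_of_isOperator (hw : Stmt.IsAdmissible p w) (hA : Stmt.IsOperator p α β w 𝒜) :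
    ∀ᵐ x ∂(Stmt.wm w), ∀ ξ ζ : Sp n, ξ ≠ ζ →
      0 < ⟪(fun x ξ => (w x)⁻¹ • 𝒜 x ξ) x ξ - (fun x ξ => (w x)⁻¹ • 𝒜 x ξ) x ζ, ξ - ζ⟫ := by
  filter_upwards [ae_wm hw hA.monotone, ae_wm hw hw.pos] with x hx hx' ξ ζ hne
  rw [← smul_sub, real_inner_smul_left]
  exact mul_pos (inv_pos.2 hx') (hx ξ ζ hne)

/-- comparison of harmonic functions -/
theorem harm_cmp (hp : 1 < p) (hw : Stmt.IsAdmissible p w) (hA : Stmt.IsOperator p α β w 𝒜)
    {D : Set (Sp n)} (hD : IsOpen D) (hDc : IsCompact (closure D)) {h k : Sp n → ℝ}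
    (hh : ContinuousOn h (closure D)) (hk : ContinuousOn k (closure D))
    (h1 : Stmt.IsHarmonic 𝒜 p w D h) (k1 : Stmt.IsHarmonic 𝒜 p w D k)
    (hle : ∀ x ∈ frontier D, h x ≤ k x) : ∀ x ∈ D, h x ≤ k x := by
  obtain ⟨-, -, -, -, -, hfin⟩ := wm_basic hp hw
  have := hfin
  obtain ⟨Cd, θ, Cs, lam, Cp, hadm⟩ := adm_of_isAdmissible hp hw
  obtain ⟨H, hH1, hH2⟩ := internal_of_harmonic hp hw hD h1
  obtain ⟨K, hK1, hK2⟩ := internal_of_harmonic hp hw hD k1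
  exact cmp_weak hp (op_of_isOperator hp hw hA) (strict_of_isOperator hw hA) hadm hD hDc hh hk hH1 hK1
    hH2 hK2 hle

/-- constants are weak solutions -/
theorem const_weak (hp : 1 < p) (hw : Stmt.IsAdmissible p w) (hA : Stmt.IsOperator p α β w 𝒜) :
    ∀ φ : Sp n → ℝ, ∫ x, ⟪(w x)⁻¹ • 𝒜 x 0, gradient φ x⟫ ∂(Stmt.wm w) = 0 := by
  intro φ
  have h1 : ∀ᵐ x ∂(Stmt.wm w), ⟪(w x)⁻¹ • 𝒜 x 0, gradient φ x⟫ = (0 : ℝ) := by
    filter_upwards [ae_wm hw hA.bounded] with x hx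
    have h2 := hx 0
    rw [norm_zero, Real.zero_rpow (by linarith), mul_zero] at h2
    have h3 : 𝒜 x 0 = 0 := norm_le_zero_iff.1 h2
    rw [h3, smul_zero, inner_zero_left]
  rw [integral_congr_ae h1]
  simp

theorem max_principle (hp : 1 < p) (hw : Stmt.IsAdmissible p w) (hA : Stmt.IsOperator p α β w 𝒜)
    {D : Set (Sp n)} (hD : IsOpen D) (hDc : IsCompact (closure D)) {h : Sp n → ℝ}
    (hh : ContinuousOn h (closure D)) (h1 : Stmt.IsHarmonic 𝒜 p w D h) {M : ℝ}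
    (hle : ∀ x ∈ frontier D, h x ≤ M) : ∀ x ∈ D, h x ≤ M := by
  obtain ⟨-, -, -, -, -, hfin⟩ := wm_basic hp hw
  have := hfin
  obtain ⟨Cd, θ, Cs, lam, Cp, hadm⟩ := adm_of_isAdmissible hp hw
  obtain ⟨H, hH1, hH2⟩ := internal_of_harmonic hp hw hD h1
  exact cmp_weak (k := fun _ => M) (K := fun _ => 0) hp (op_of_isOperator hp hw hA)
    (strict_of_isOperator hw hA) hadm hD hDc hh continuousOn_const hH1 (LH.const M)
    hH2 (fun φ _ => const_weak hp hw hA φ) hle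

theorem min_principle (hp : 1 < p) (hw : Stmt.IsAdmissible p w) (hA : Stmt.IsOperator p α β w 𝒜)
    {D : Set (Sp n)} (hD : IsOpen D) (hDc : IsCompact (closure D)) {h : Sp n → ℝ}
    (hh : ContinuousOn h (closure D)) (h1 : Stmt.IsHarmonic 𝒜 p w D h) {M : ℝ}
    (hle : ∀ x ∈ frontier D, M ≤ h x) : ∀ x ∈ D, M ≤ h x := by
  obtain ⟨-, -, -, -, -, hfin⟩ := wm_basic hp hw
  have := hfin
  obtain ⟨Cd, θ, Cs, lam, Cp, hadm⟩ := adm_of_isAdmissible hp hw
  obtain ⟨H, hH1, hH2⟩ := internal_of_harmonic hp hw hD h1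
  exact cmp_weak (h := fun _ => M) (H := fun _ => 0) hp (op_of_isOperator hp hw hA)
    (strict_of_isOperator hw hA) hadm hD hDc continuousOn_const hh (LH.const M) hH1
    (fun φ _ => const_weak hp hw hA φ) hH2 hle

theorem coe_min {u : EReal} {m M : ℝ} (hm : (m : EReal) ≤ u) :
    (((min u (M : EReal)).toReal : ℝ) : EReal) = min u (M : EReal) := by
  apply EReal.coe_toReal
  · exact ne_top_of_le_ne_top (EReal.coe_ne_top M) (min_le_right _ _)
  · have h1 : ((min m M : ℝ) : EReal) ≤ min u (M : EReal) := by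
      rw [EReal.coe_strictMono.monotone.map_min]
      exact min_le_min hm le_rfl
    exact ne_bot_of_le_ne_bot (EReal.coe_ne_bot _) h1

theorem coe_max {v : EReal} {m M : ℝ} (hM : v ≤ (M : EReal)) :
    (((max v (m : EReal)).toReal : ℝ) : EReal) = max v (m : EReal) := by
  apply EReal.coe_toReal
  · have h1 : max v (m : EReal) ≤ ((max M m : ℝ) : EReal) := by
      rw [EReal.coe_strictMono.monotone.map_max]
      exact max_le_max hM le_rfl
    exact ne_top_of_le_ne_top (EReal.coe_ne_top _) h1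
  · exact ne_bot_of_le_ne_bot (EReal.coe_ne_bot m) (le_max_right _ _)

theorem trunc_super (hp : 1 < p) (hw : Stmt.IsAdmissible p w) (hA : Stmt.IsOperator p α β w 𝒜)
    {u : Sp n → EReal} (hu : IsSuper 𝒜 p w Ω u) {m : ℝ} (hm : ∀ x ∈ Ω, (m : EReal) ≤ u x) (M : ℝ) :
    Stmt.IsSuperharmonic 𝒜 p w Ω (fun x => (min (u x) (M : EReal)).toReal) := by
  refine ⟨?_, ?_⟩
  · intro x hx y hy
    have h1 : (y : EReal) < min (u x) (M : EReal) := by
      rw [← coe_min (hm x hx)]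
      exact EReal.coe_lt_coe_iff.2 hy
    have h2 := hu.lsc x hx y (h1.trans_le (min_le_left _ _))
    filter_upwards [h2, self_mem_nhdsWithin] with z hz hzΩ
    have h3 : (y : EReal) < min (u z) (M : EReal) := lt_min hz (h1.trans_le (min_le_right _ _))
    rw [← coe_min (hm z hzΩ)] at h3
    exact EReal.coe_lt_coe_iff.1 h3
  · intro D hD hDc hDΩ h hh hharm hb x hx
    have hfΩ : ∀ y ∈ frontier D, y ∈ Ω := fun y hy => hDΩ (frontier_subset_closure hy)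
    have h1 : ∀ y ∈ frontier D, (h y : EReal) ≤ min (u y) (M : EReal) := by
      intro y hy
      rw [← coe_min (hm y (hfΩ y hy))]
      exact EReal.coe_le_coe_iff.2 (hb y hy)
    have h2 := hu.comparison D hD hDc hDΩ h hh hharm (fun y hy => (h1 y hy).trans (min_le_left _ _)) x hx
    have h3 := max_principle hp hw hA hD hDc hh hharm (M := M)
      (fun y hy => EReal.coe_le_coe_iff.1 ((h1 y hy).trans (min_le_right _ _))) x hx
    have h4 : (h x : EReal) ≤ min (u x) (M : EReal) := le_min h2 (EReal.coe_le_coe_iff.2 h3)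
    rw [← coe_min (hm x (hDΩ (subset_closure hx)))] at h4
    exact EReal.coe_le_coe_iff.1 h4

theorem trunc_sub (hp : 1 < p) (hw : Stmt.IsAdmissible p w) (hA : Stmt.IsOperator p α β w 𝒜)
    {v : Sp n → EReal} (hv : IsSub 𝒜 p w Ω v) {M : ℝ} (hM : ∀ x ∈ Ω, v x ≤ (M : EReal)) (m : ℝ) :
    Stmt.IsSubharmonic 𝒜 p w Ω (fun x => (max (v x) (m : EReal)).toReal) := by
  refine ⟨?_, ?_⟩
  · intro x hx y hy
    have h1 : max (v x) (m : EReal) < (y : EReal) := by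
      rw [← coe_max (hM x hx)]
      exact EReal.coe_lt_coe_iff.2 hy
    have h2 := hv.usc x hx y ((le_max_left _ _).trans_lt h1)
    filter_upwards [h2, self_mem_nhdsWithin] with z hz hzΩ
    have h3 : max (v z) (m : EReal) < (y : EReal) := max_lt hz ((le_max_right _ _).trans_lt h1)
    rw [← coe_max (hM z hzΩ)] at h3
    exact EReal.coe_lt_coe_iff.1 h3
  · intro D hD hDc hDΩ h hh hharm hb x hx
    have hfΩ : ∀ y ∈ frontier D, y ∈ Ω := fun y hy => hDΩ (frontier_subset_closure hy)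
    have h1 : ∀ y ∈ frontier D, max (v y) (m : EReal) ≤ (h y : EReal) := by
      intro y hy
      rw [← coe_max (hM y (hfΩ y hy))]
      exact EReal.coe_le_coe_iff.2 (hb y hy)
    have h2 := hv.comparison D hD hDc hDΩ h hh hharm (fun y hy => (le_max_left _ _).trans (h1 y hy)) x hx
    have h3 := min_principle hp hw hA hD hDc hh hharm (M := m)
      (fun y hy => EReal.coe_le_coe_iff.1 ((le_max_right _ _).trans (h1 y hy))) x hx
    have h4 : max (v x) (m : EReal) ≤ (h x : EReal) := max_le h2 (EReal.coe_le_coe_iff.2 h3)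
    rw [← coe_max (hM x (hDΩ (subset_closure hx)))] at h4
    exact EReal.coe_le_coe_iff.1 h4

/-- harmonic functions in `Ω` restrict to smaller sets -/
theorem harm_mono {D : Set (Sp n)} (hDΩ : D ⊆ Ω) {h : Sp n → ℝ} (hh : Stmt.IsHarmonic 𝒜 p w Ω h) :
    Stmt.IsHarmonic 𝒜 p w D h := by
  obtain ⟨h1, H, h2, h3⟩ := hh
  exact ⟨h1.mono hDΩ, H, fun D' a b c => h2 D' a b (c.trans hDΩ),
    fun φ hφ => h3 φ ⟨hφ.smooth, hφ.compact, hφ.support.trans hDΩ⟩⟩

theorem super_of_harm (hp : 1 < p) (hw : Stmt.IsAdmissible p w) (hA : Stmt.IsOperator p α β w 𝒜)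
    {h : Sp n → ℝ} (hh : Stmt.IsHarmonic 𝒜 p w Ω h) : IsSuper 𝒜 p w Ω (fun x => (h x : EReal)) := by
  refine ⟨fun x _ => EReal.coe_ne_bot _, ?_, ?_⟩
  · exact (continuous_coe_real_ereal.comp_continuousOn hh.1).lowerSemicontinuousOn
  · intro D hD hDc hDΩ k hk hharm hb x hx
    refine EReal.coe_le_coe_iff.2 (harm_cmp hp hw hA hD hDc hk (hh.1.mono hDΩ) hharm
      (harm_mono (subset_closure.trans hDΩ) hh) (fun y hy => EReal.coe_le_coe_iff.1 (hb y hy)) x hx)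

theorem sub_of_harm (hp : 1 < p) (hw : Stmt.IsAdmissible p w) (hA : Stmt.IsOperator p α β w 𝒜)
    {h : Sp n → ℝ} (hh : Stmt.IsHarmonic 𝒜 p w Ω h) : IsSub 𝒜 p w Ω (fun x => (h x : EReal)) := by
  refine ⟨fun x _ => EReal.coe_ne_top _, ?_, ?_⟩
  · exact (continuous_coe_real_ereal.comp_continuousOn hh.1).upperSemicontinuousOn
  · intro D hD hDc hDΩ k hk hharm hb x hx
    refine EReal.coe_le_coe_iff.2 (harm_cmp hp hw hA hD hDc (hh.1.mono hDΩ) hk
      (harm_mono (subset_closure.trans hDΩ) hh) hharm (fun y hy => EReal.coe_le_coe_iff.1 (hb y hy)) x hx)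

/-- a subharmonic function which is locally bounded above at the boundary is bounded above -/
theorem bdd_above (hΩb : Bornology.IsBounded Ω) {v : Sp n → EReal} (h0 : ∀ x ∈ Ω, v x ≠ ⊤)
    (hv : UpperSemicontinuousOn v Ω) (hb : ∀ y ∈ frontier Ω, limsup v (𝓝[Ω] y) < ⊤) :
    ∃ M : ℝ, ∀ x ∈ Ω, v x ≤ (M : EReal) := by
  have hloc : ∀ y ∈ closure Ω, ∃ c : ℝ, ∀ᶠ x in 𝓝[Ω] y, v x < (c : EReal) := by
    intro y hy
    by_cases hyΩ : y ∈ Ω
    · obtain ⟨c, hc, -⟩ := EReal.lt_iff_exists_real_btwn.1 (lt_top_iff_ne_top.2 (h0 y hyΩ))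
      exact ⟨c, hv y hyΩ c hc⟩
    · have hyf : y ∈ frontier Ω := ⟨hy, fun h => hyΩ (interior_subset h)⟩
      obtain ⟨c, hc, -⟩ := EReal.lt_iff_exists_real_btwn.1 (hb y hyf)
      exact ⟨c, eventually_lt_of_limsup_lt hc⟩
  have key : ∃ M : ℝ, ∀ x ∈ closure Ω, x ∈ Ω → v x ≤ (M : EReal) := by
    refine hΩb.isCompact_closure.induction_on (p := fun S => ∃ M : ℝ, ∀ x ∈ S, x ∈ Ω → v x ≤ (M : EReal))
      ⟨0, fun x hx => absurd hx (notMem_empty x)⟩ ?_ ?_ ?_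
    · rintro S T hST ⟨M, hM⟩
      exact ⟨M, fun x hx => hM x (hST hx)⟩
    · rintro S T ⟨M, hM⟩ ⟨M', hM'⟩
      refine ⟨max M M', ?_⟩
      rintro x (hx | hx) hxΩ
      · exact (hM x hx hxΩ).trans (EReal.coe_le_coe_iff.2 (le_max_left _ _))
      · exact (hM' x hx hxΩ).trans (EReal.coe_le_coe_iff.2 (le_max_right _ _))
    · intro y hy
      obtain ⟨c, hc⟩ := hloc y hy
      rw [eventually_nhdsWithin_iff] at hc
      exact ⟨{x | x ∈ Ω → v x < (c : EReal)}, mem_nhdsWithin_of_mem_nhds hc, c,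
        fun x hx hxΩ => (hx hxΩ).le⟩
  obtain ⟨M, hM⟩ := key
  exact ⟨M, fun x hx => hM x (subset_closure hx) hx⟩

/-- a superharmonic function which is locally bounded below at the boundary is bounded below -/
theorem bdd_below (hΩb : Bornology.IsBounded Ω) {u : Sp n → EReal} (h0 : ∀ x ∈ Ω, u x ≠ ⊥)
    (hu : LowerSemicontinuousOn u Ω) (hb : ∀ y ∈ frontier Ω, ⊥ < liminf u (𝓝[Ω] y)) :
    ∃ m : ℝ, ∀ x ∈ Ω, (m : EReal) ≤ u x := by
  have hloc : ∀ y ∈ closure Ω, ∃ c : ℝ, ∀ᶠ x in 𝓝[Ω] y, (c : EReal) < u x := by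
    intro y hy
    by_cases hyΩ : y ∈ Ω
    · obtain ⟨c, -, hc⟩ := EReal.lt_iff_exists_real_btwn.1 (bot_lt_iff_ne_bot.2 (h0 y hyΩ))
      exact ⟨c, hu y hyΩ c hc⟩
    · have hyf : y ∈ frontier Ω := ⟨hy, fun h => hyΩ (interior_subset h)⟩
      obtain ⟨c, -, hc⟩ := EReal.lt_iff_exists_real_btwn.1 (hb y hyf)
      exact ⟨c, eventually_lt_of_lt_liminf hc⟩
  have key : ∃ m : ℝ, ∀ x ∈ closure Ω, x ∈ Ω → (m : EReal) ≤ u x := by
    refine hΩb.isCompact_closure.induction_on (p := fun S => ∃ M : ℝ, ∀ x ∈ S, x ∈ Ω → (M : EReal) ≤ u x)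
      ⟨0, fun x hx => absurd hx (notMem_empty x)⟩ ?_ ?_ ?_
    · rintro S T hST ⟨M, hM⟩
      exact ⟨M, fun x hx => hM x (hST hx)⟩
    · rintro S T ⟨M, hM⟩ ⟨M', hM'⟩
      refine ⟨min M M', ?_⟩
      rintro x (hx | hx) hxΩ
      · exact (EReal.coe_le_coe_iff.2 (min_le_left _ _)).trans (hM x hx hxΩ)
      · exact (EReal.coe_le_coe_iff.2 (min_le_right _ _)).trans (hM' x hx hxΩ)
    · intro y hy
      obtain ⟨c, hc⟩ := hloc y hy
      rw [eventually_nhdsWithin_iff] at hc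
      exact ⟨{x | x ∈ Ω → (c : EReal) < u x}, mem_nhdsWithin_of_mem_nhds hc, c,
        fun x hx hxΩ => (hx hxΩ).le⟩
  obtain ⟨M, hM⟩ := key
  exact ⟨M, fun x hx => hM x (subset_closure hx) hx⟩

end Pool.Agent.KS6_83.PN
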