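import Pool.Agent.KS6_83.PN.E

/-!
The comparison principle with an exceptional set of boundary points of zero relative capacity.
-/

set_option autoImplicit false

open MeasureTheory Filter Topology Set
open scoped ENNReal NNReal RealInnerProductSpace

namespace Pool.Agent.KS6_83.PN

open Pool.Agent.Helper533.Polar

variable {n : ℕ} {p α β : ℝ} {w : Sp n → ℝ} {𝒜 : Sp n → Sp n → Sp n} {Ω : Set (Sp n)}

theorem compare (hn : 2 ≤ n) (hp : 1 < p) (hw : Stmt.IsAdmissible p w)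
    (hA : Stmt.IsOperator p α β w 𝒜) (hΩ : IsOpen Ω) (hΩb : Bornology.IsBounded Ω)
    {E : Set (Sp n)} (hE : relCap p (Stmt.wm w) Ω E = 0) {u v : Sp n → EReal}
    (hu : IsSuper 𝒜 p w Ω u) (hv : IsSub 𝒜 p w Ω v)
    (hvt : ∀ y ∈ frontier Ω, limsup v (𝓝[Ω] y) < ⊤) (hub : ∀ y ∈ frontier Ω, ⊥ < liminf u (𝓝[Ω] y))
    (hbd : ∀ y ∈ frontier Ω \ E, limsup v (𝓝[Ω] y) ≤ liminf u (𝓝[Ω] y)) :
    ∀ x ∈ Ω, v x ≤ u x := by
  obtain ⟨M0, hM0⟩ := bdd_above hΩb hv.ne_top hv.usc hvt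
  obtain ⟨m0, hm0⟩ := bdd_below hΩb hu.ne_bot hu.lsc hub
  obtain ⟨K, hK⟩ : ∃ K : ℝ, K = max |m0| |M0| := ⟨_, rfl⟩
  have hK0 : 0 ≤ K := by rw [hK]; exact (abs_nonneg _).trans (le_max_left _ _)
  have hKu : ∀ x ∈ Ω, ((-K : ℝ) : EReal) ≤ u x := by
    intro x hx
    refine le_trans (EReal.coe_le_coe_iff.2 ?_) (hm0 x hx)
    have h1 : |m0| ≤ K := by rw [hK]; exact le_max_left _ _
    linarith [neg_abs_le m0]
  have hKv : ∀ x ∈ Ω, v x ≤ (K : EReal) := by
    intro x hx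
    refine (hM0 x hx).trans (EReal.coe_le_coe_iff.2 ?_)
    have h1 : |M0| ≤ K := by rw [hK]; exact le_max_right _ _
    linarith [le_abs_self M0]
  obtain ⟨ut, hut⟩ : ∃ ut : Sp n → ℝ, ut = fun x => (min (u x) (K : EReal)).toReal := ⟨_, rfl⟩
  obtain ⟨vt, hvt'⟩ : ∃ vt : Sp n → ℝ, vt = fun x => (max (v x) ((-K : ℝ) : EReal)).toReal := ⟨_, rfl⟩
  have cu : ∀ x ∈ Ω, (ut x : EReal) = min (u x) (K : EReal) := by
    intro x hx
    rw [hut]
    exact coe_min (hKu x hx)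
  have cv : ∀ x ∈ Ω, (vt x : EReal) = max (v x) ((-K : ℝ) : EReal) := by
    intro x hx
    rw [hvt']
    exact coe_max (hKv x hx)
  have hUS : Stmt.IsSuperharmonic 𝒜 p w Ω ut := by
    rw [hut]
    exact trunc_super hp hw hA hu hKu K
  have hVS : Stmt.IsSubharmonic 𝒜 p w Ω vt := by
    rw [hvt']
    exact trunc_sub hp hw hA hv hKv (-K)
  have hmu : ∀ x ∈ Ω, |ut x| ≤ K := by
    intro x hx
    rw [abs_le]
    constructor
    · rw [← EReal.coe_le_coe_iff, cu x hx]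
      exact le_min (hKu x hx) (EReal.coe_le_coe_iff.2 (by linarith))
    · rw [← EReal.coe_le_coe_iff, cu x hx]
      exact min_le_right _ _
  have hmv : ∀ x ∈ Ω, |vt x| ≤ K := by
    intro x hx
    rw [abs_le]
    constructor
    · rw [← EReal.coe_le_coe_iff, cv x hx]
      exact le_max_right _ _
    · rw [← EReal.coe_le_coe_iff, cv x hx]
      exact max_le (hKv x hx) (EReal.coe_le_coe_iff.2 (by linarith))
  obtain ⟨Cd0, -, -, -, -, hfin⟩ := wm_basic hp hw
  have := hfin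
  obtain ⟨Cd, θ, Cs, lam, Cp, hadm⟩ := adm_of_isAdmissible hp hw
  have hα : 0 < α := hA.alpha_pos
  have hβ : 0 < β := lt_of_lt_of_le hα hA.alpha_le_beta
  have hne : Ωᶜ.Nonempty := by
    have : Nonempty (Fin n) := ⟨⟨0, by omega⟩⟩
    have : Nontrivial (Sp n) := inferInstance
    by_contra hcon
    rw [not_nonempty_iff_eq_empty, compl_empty_iff] at hcon
    rw [hcon] at hΩb
    exact NormedSpace.unbounded_univ ℝ (Sp n) hΩb
  have hmain : ∀ x ∈ Ω, vt x ≤ ut x := by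
    refine main_internal' (m := K) hp hα hβ (op_of_isOperator hp hw hA) hadm hΩ hΩb hne hK0 hmu hmv
      hUS.lsc hVS.usc (cmpSuper_of hp hw hUS) (cmpSuper_neg_of hp hw hA hVS) (E := E) ?_
      (cut_of_relCap hp hΩ hE)
    intro y hy hyE e he
    obtain ⟨L, hL⟩ : ∃ L : EReal, L = limsup v (𝓝[Ω] y) := ⟨_, rfl⟩
    obtain ⟨l, hl⟩ : ∃ l : EReal, l = liminf u (𝓝[Ω] y) := ⟨_, rfl⟩
    have hLl : L ≤ l := by
      rw [hL, hl]
      exact hbd y ⟨hy, hyE⟩
    have hLK : L ≤ (K : EReal) := by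
      rw [hL]
      exact limsup_le_of_le (h := by filter_upwards [self_mem_nhdsWithin] with x hx using hKv x hx)
    have hlK : ((-K : ℝ) : EReal) ≤ l := by
      rw [hl]
      exact le_liminf_of_le (h := by filter_upwards [self_mem_nhdsWithin] with x hx using hKu x hx)
    obtain ⟨a, ha⟩ : ∃ a : ℝ, (a : EReal) = max L ((-K : ℝ) : EReal) :=
      ⟨_, coe_max hLK⟩
    have ha1 : -K ≤ a := by
      rw [← EReal.coe_le_coe_iff, ha]
      exact le_max_right _ _
    have ha2 : a ≤ K := by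
      rw [← EReal.coe_le_coe_iff, ha]
      exact max_le hLK (EReal.coe_le_coe_iff.2 (by linarith))
    have ha3 : (a : EReal) ≤ l := by
      rw [ha]
      exact max_le hLl hlK
    have hLa : L ≤ (a : EReal) := by
      rw [ha]
      exact le_max_left _ _
    have h1 : ∀ᶠ x in 𝓝[Ω] y, v x < ((a + e / 2 : ℝ) : EReal) := by
      have k0 : limsup v (𝓝[Ω] y) < ((a + e / 2 : ℝ) : EReal) := by
        rw [← hL]
        exact hLa.trans_lt (EReal.coe_lt_coe_iff.2 (by linarith))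
      exact eventually_lt_of_limsup_lt k0
    have h2 : ∀ᶠ x in 𝓝[Ω] y, ((a - e / 2 : ℝ) : EReal) < u x := by
      have k0 : ((a - e / 2 : ℝ) : EReal) < liminf u (𝓝[Ω] y) := by
        rw [← hl]
        exact lt_of_lt_of_le (EReal.coe_lt_coe_iff.2 (by linarith)) ha3
      exact eventually_lt_of_lt_liminf k0
    have h3 : ∀ᶠ x in 𝓝[Ω] y, vt x < ut x + e := by
      filter_upwards [h1, h2, self_mem_nhdsWithin] with x hx1 hx2 hxΩ
      have k1 : vt x < a + e / 2 := by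
        rw [← EReal.coe_lt_coe_iff, cv x hxΩ]
        exact max_lt hx1 (EReal.coe_lt_coe_iff.2 (by linarith))
      have k2 : a - e / 2 < ut x := by
        rw [← EReal.coe_lt_coe_iff, cu x hxΩ]
        exact lt_min hx2 (EReal.coe_lt_coe_iff.2 (by linarith))
      linarith
    rw [Metric.nhdsWithin_basis_ball.eventually_iff] at h3
    obtain ⟨r, hr, h4⟩ := h3
    exact ⟨r, hr, fun x hxΩ hxb => h4 ⟨hxb, hxΩ⟩⟩
  intro x hx
  have h5 := EReal.coe_le_coe_iff.2 (hmain x hx)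
  rw [cu x hx, cv x hx] at h5
  exact (le_max_left _ _).trans (h5.trans (min_le_left _ _))

end Pool.Agent.KS6_83.PN
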